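import Pool.Agent.H870R4.Noz.Stmts

/-!
# Task TaskHJ1 of project H870-NOZ: fixed point with Lipschitz dependence
-/

set_option autoImplicit false

open MeasureTheory Set
open scoped ContDiff

namespace H399R6.HJ1

open H870N

/-- extension of a continuous function on `[0,1]` by constants -/
noncomputable def ext (f : C(Icc (0:ℝ) 1, E2)) : ℝ → E2 := IccExtend zero_le_one f

theorem ext_cont (f : C(Icc (0:ℝ) 1, E2)) : Continuous (ext f) := f.continuous.Icc_extend'

theorem ext_norm_le (f : C(Icc (0:ℝ) 1, E2)) (s : ℝ) : ‖ext f s‖ ≤ ‖f‖ := f.norm_coe_le_norm _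

theorem ext_sub_norm_le (f g : C(Icc (0:ℝ) 1, E2)) (s : ℝ) : ‖ext f s - ext g s‖ ≤ ‖f - g‖ :=
  (f - g).norm_coe_le_norm _

theorem path_cont {h : ℝ → E2} (hh : Continuous h) (t : ℝ) (x : E2) : Continuous (path t x h) := by
  have : path t x h = fun σ => x - t • (- ∫ τ in (1:ℝ)..σ, h τ) := by
    funext σ
    unfold path
    rw [intervalIntegral.integral_symm]
  rw [this]
  exact continuous_const.sub
    ((intervalIntegral.continuous_primitive (fun a b => hh.intervalIntegrable a b) 1).neg.const_smul t)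

theorem path_diff {f g : ℝ → E2} (hf : Continuous f) (hg : Continuous g) {M D : ℝ}
    (hM : ∀ s, ‖f s‖ ≤ M) (hD : ∀ s, ‖f s - g s‖ ≤ D) (t t' : ℝ) (x x' : E2) (σ : ℝ)
    (hσ : σ ∈ Icc (0:ℝ) 1) :
    ‖path t x f σ - path t' x' g σ‖ ≤ ‖x - x'‖ + |t - t'| * M + |t'| * D := by
  have e : path t x f σ - path t' x' g σ =
      (x - x') - (t - t') • (∫ τ in σ..1, f τ) - t' • (∫ τ in σ..1, (f τ - g τ)) := by
    unfold path
    rw [intervalIntegral.integral_sub (hf.intervalIntegrable _ _) (hg.intervalIntegrable _ _)]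
    module
  have hM0 : 0 ≤ M := (norm_nonneg _).trans (hM 0)
  have hD0 : 0 ≤ D := (norm_nonneg _).trans (hD 0)
  have h01 : |1 - σ| ≤ 1 := by
    rw [abs_le]
    constructor <;> linarith [hσ.1, hσ.2]
  have h1 : ‖∫ τ in σ..1, f τ‖ ≤ M := by
    have := intervalIntegral.norm_integral_le_of_norm_le_const (a := σ) (b := 1) (f := f) (C := M)
      (fun s _ => hM s)
    exact this.trans (mul_le_of_le_one_right hM0 h01)
  have h2 : ‖∫ τ in σ..1, (f τ - g τ)‖ ≤ D := by
    have := intervalIntegral.norm_integral_le_of_norm_le_const (a := σ) (b := 1)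
      (f := fun τ => f τ - g τ) (C := D) (fun s _ => hD s)
    exact this.trans (mul_le_of_le_one_right hD0 h01)
  rw [e]
  calc ‖(x - x') - (t - t') • (∫ τ in σ..1, f τ) - t' • (∫ τ in σ..1, (f τ - g τ))‖
      ≤ ‖(x - x') - (t - t') • (∫ τ in σ..1, f τ)‖ + ‖t' • (∫ τ in σ..1, (f τ - g τ))‖ :=
        norm_sub_le _ _
    _ ≤ (‖x - x'‖ + ‖(t - t') • (∫ τ in σ..1, f τ)‖) + ‖t' • (∫ τ in σ..1, (f τ - g τ))‖ := by
        gcongr
        exact norm_sub_le _ _
    _ ≤ ‖x - x'‖ + |t - t'| * M + |t'| * D := by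
        rw [norm_smul, norm_smul, Real.norm_eq_abs, Real.norm_eq_abs]
        gcongr

theorem EL_cont {Q p0 : E2 → ℝ} (hQ : Continuous (gradient Q)) {h : ℝ → E2} (hh : Continuous h)
    (t : ℝ) (x : E2) : Continuous (EL Q p0 t x h) := by
  unfold EL
  refine continuous_const.add (Continuous.const_smul ?_ t)
  exact intervalIntegral.continuous_primitive
    (fun a b => (hQ.comp (path_cont hh t x)).intervalIntegrable a b) 0

theorem EL_diff {Q p0 : E2 → ℝ} (hQ : Continuous (gradient Q)) {G L : ℝ}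
    (hG : ∀ x, ‖gradient Q x‖ ≤ G) (hL1 : ∀ x y, ‖gradient Q x - gradient Q y‖ ≤ L * ‖x - y‖)
    (hL2 : ∀ x y, ‖gradient p0 x - gradient p0 y‖ ≤ L * ‖x - y‖) (hL : 0 ≤ L)
    {f g : ℝ → E2} (hf : Continuous f) (hg : Continuous g) {M D : ℝ}
    (hM : ∀ s, ‖f s‖ ≤ M) (hD : ∀ s, ‖f s - g s‖ ≤ D) (t t' : ℝ) (x x' : E2) (ht' : |t'| ≤ 1)
    (σ : ℝ) (hσ : σ ∈ Icc (0:ℝ) 1) :
    ‖EL Q p0 t x f σ - EL Q p0 t' x' g σ‖ ≤
      2 * L * (‖x - x'‖ + |t - t'| * M + |t'| * D) + |t - t'| * G := by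
  set B := ‖x - x'‖ + |t - t'| * M + |t'| * D with hB
  have hM0 : 0 ≤ M := (norm_nonneg _).trans (hM 0)
  have hD0 : 0 ≤ D := (norm_nonneg _).trans (hD 0)
  have hG0 : 0 ≤ G := (norm_nonneg _).trans (hG 0)
  have hB0 : 0 ≤ B := by positivity
  have hP : ∀ s ∈ Icc (0:ℝ) 1, ‖path t x f s - path t' x' g s‖ ≤ B :=
    fun s hs => path_diff hf hg hM hD t t' x x' s hs
  have c1 : Continuous fun τ => gradient Q (path t x f τ) := hQ.comp (path_cont hf t x)
  have c2 : Continuous fun τ => gradient Q (path t' x' g τ) := hQ.comp (path_cont hg t' x')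
  have e : EL Q p0 t x f σ - EL Q p0 t' x' g σ =
      -(gradient p0 (path t x f 0) - gradient p0 (path t' x' g 0)) +
      (t - t') • (∫ τ in (0:ℝ)..σ, gradient Q (path t x f τ)) +
      t' • (∫ τ in (0:ℝ)..σ, (gradient Q (path t x f τ) - gradient Q (path t' x' g τ))) := by
    unfold EL
    rw [intervalIntegral.integral_sub (c1.intervalIntegrable _ _) (c2.intervalIntegrable _ _)]
    module
  have h01 : |σ - 0| ≤ 1 := by
    rw [abs_le]
    constructor <;> linarith [hσ.1, hσ.2]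
  have h1 : ‖∫ τ in (0:ℝ)..σ, gradient Q (path t x f τ)‖ ≤ G := by
    have := intervalIntegral.norm_integral_le_of_norm_le_const (a := 0) (b := σ)
      (f := fun τ => gradient Q (path t x f τ)) (C := G) (fun s _ => hG _)
    exact this.trans (mul_le_of_le_one_right hG0 h01)
  have h2 : ‖∫ τ in (0:ℝ)..σ, (gradient Q (path t x f τ) - gradient Q (path t' x' g τ))‖ ≤
      L * B := by
    have := intervalIntegral.norm_integral_le_of_norm_le_const (a := 0) (b := σ)
      (f := fun τ => gradient Q (path t x f τ) - gradient Q (path t' x' g τ)) (C := L * B) ?_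
    · exact this.trans (mul_le_of_le_one_right (by positivity) h01)
    · intro s hs
      rw [Set.uIoc_of_le hσ.1] at hs
      refine (hL1 _ _).trans ?_
      gcongr
      exact hP s ⟨hs.1.le, hs.2.trans hσ.2⟩
  have h3 : ‖gradient p0 (path t x f 0) - gradient p0 (path t' x' g 0)‖ ≤ L * B := by
    refine (hL2 _ _).trans ?_
    gcongr
    exact hP 0 ⟨le_refl _, zero_le_one⟩
  rw [e]
  calc _ ≤ ‖-(gradient p0 (path t x f 0) - gradient p0 (path t' x' g 0))‖ +
        ‖(t - t') • (∫ τ in (0:ℝ)..σ, gradient Q (path t x f τ))‖ +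
        ‖t' • (∫ τ in (0:ℝ)..σ, (gradient Q (path t x f τ) - gradient Q (path t' x' g τ)))‖ :=
        norm_add₃_le
    _ ≤ L * B + |t - t'| * G + 1 * (L * B) := by
        rw [norm_neg, norm_smul, norm_smul, Real.norm_eq_abs, Real.norm_eq_abs]
        gcongr
    _ = _ := by ring

theorem grad_bounds {f : E2 → ℝ} (hf : ContDiff ℝ ∞ f) (hc : HasCompactSupport f) :
    Continuous (gradient f) ∧ (∃ G, ∀ x, ‖gradient f x‖ ≤ G) ∧
      ∃ L, ∀ x y, ‖gradient f x - gradient f y‖ ≤ L * ‖x - y‖ := by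
  have h1 : ContDiff ℝ 1 (fderiv ℝ f) := hf.fderiv_right (m := 1) (by norm_cast)
  have h2 : HasCompactSupport (fderiv ℝ f) := hc.fderiv ℝ
  have e : ∀ x, gradient f x = (InnerProductSpace.toDual ℝ E2).symm (fderiv ℝ f x) := fun x => rfl
  obtain ⟨C, hC⟩ := h1.lipschitzWith_of_hasCompactSupport h2 one_ne_zero
  obtain ⟨G, hG⟩ := h2.exists_bound_of_continuous h1.continuous
  refine ⟨?_, ⟨G, ?_⟩, ⟨C, ?_⟩⟩
  · have : gradient f = fun x => (InnerProductSpace.toDual ℝ E2).symm (fderiv ℝ f x) := rfl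
    rw [this]
    exact (InnerProductSpace.toDual ℝ E2).symm.continuous.comp h1.continuous
  · intro x
    rw [e, LinearIsometryEquiv.norm_map]
    exact hG x
  · intro x y
    rw [e, e, ← map_sub, LinearIsometryEquiv.norm_map, ← dist_eq_norm, ← dist_eq_norm]
    exact hC.dist_le_mul x y

theorem taskHJ1 : TaskHJ1 := by
  intro Q p0 hQ hp hQc hpc
  obtain ⟨cQ, ⟨G1, hG1⟩, ⟨L1, hL1⟩⟩ := grad_bounds hQ hQc
  obtain ⟨cP, ⟨G2, hG2⟩, ⟨L2, hL2⟩⟩ := grad_bounds hp hpc
  -- common constants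
  set G := max 0 (max G1 G2) with hGdef
  set L := max 0 (max L1 L2) with hLdef
  have hG0 : 0 ≤ G := le_max_left _ _
  have hL0 : 0 ≤ L := le_max_left _ _
  have gQ : ∀ x, ‖gradient Q x‖ ≤ G := fun x =>
    (hG1 x).trans ((le_max_left _ _).trans (le_max_right _ _))
  have gP : ∀ x, ‖gradient p0 x‖ ≤ G := fun x =>
    (hG2 x).trans ((le_max_right _ _).trans (le_max_right _ _))
  have lQ : ∀ x y, ‖gradient Q x - gradient Q y‖ ≤ L * ‖x - y‖ := fun x y =>
    (hL1 x y).trans (by
      gcongr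
      exact (le_max_left _ _).trans (le_max_right _ _))
  have lP : ∀ x y, ‖gradient p0 x - gradient p0 y‖ ≤ L * ‖x - y‖ := fun x y =>
    (hL2 x y).trans (by
      gcongr
      exact (le_max_right _ _).trans (le_max_right _ _))
  set T := 1 / (4 * (L + 1)) with hT
  have hTpos : 0 < T := by positivity
  have hLT : 2 * L * T ≤ 1 / 2 := by
    rw [hT]
    rw [mul_one_div, div_le_iff₀ (by positivity)]
    linarith
  have hT1 : T ≤ 1 := by
    rw [hT, div_le_one (by positivity)]
    linarith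
  -- the fixed point
  have key : ∀ t : ℝ, |t| ≤ T → ∀ x : E2, ∃ f : C(Icc (0:ℝ) 1, E2),
      ∀ s : Icc (0:ℝ) 1, f s = EL Q p0 t x (ext f) s := by
    intro t ht x
    let Φ : C(Icc (0:ℝ) 1, E2) → C(Icc (0:ℝ) 1, E2) := fun f =>
      ⟨fun s => EL Q p0 t x (ext f) s, (EL_cont cQ (ext_cont f) t x).comp continuous_subtype_val⟩
    have hΦ : ContractingWith (1 / 2 : NNReal) Φ := by
      refine ⟨by
        rw [← NNReal.coe_lt_coe]
        norm_num, ?_⟩
      refine LipschitzWith.of_dist_le_mul fun f g => ?_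
      rw [dist_eq_norm, dist_eq_norm]
      rw [ContinuousMap.norm_le _ (by positivity)]
      intro s
      have h := EL_diff cQ gQ lQ lP hL0 (ext_cont f) (ext_cont g) (ext_norm_le f)
        (ext_sub_norm_le f g) t t x x (ht.trans hT1) s s.2
      rw [sub_self, sub_self, norm_zero, abs_zero, zero_mul, zero_mul, zero_add, zero_add,
        add_zero] at h
      refine h.trans ?_
      have h3 : 2 * L * (|t| * ‖f - g‖) ≤ 2 * L * (T * ‖f - g‖) := by gcongr
      have h4 : 2 * L * (T * ‖f - g‖) ≤ 1 / 2 * ‖f - g‖ := by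
        rw [← mul_assoc]
        gcongr
      have h5 : (((1 / 2 : NNReal) : NNReal) : ℝ) = 1 / 2 := by norm_num
      rw [h5]
      exact h3.trans h4
    refine ⟨hΦ.fixedPoint, fun s => ?_⟩
    have := hΦ.fixedPoint_isFixedPt
    have h2 := congrArg (fun F : C(Icc (0:ℝ) 1, E2) => F s) this
    exact h2.symm
  choose F hF using key
  classical
  let H : ℝ → E2 → ℝ → E2 := fun t x => if h : |t| ≤ T then ext (F t h x) else 0
  have hH : ∀ t (h : |t| ≤ T) x, H t x = ext (F t h x) := by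
    intro t h x
    simp only [H, dif_pos h]
  have hext : ∀ (f : C(Icc (0:ℝ) 1, E2)) (s : Icc (0:ℝ) 1), ext f s = f s := by
    intro f s
    unfold ext
    rw [IccExtend_val]
  have hbd : ∀ t (h : |t| ≤ T) x, ‖F t h x‖ ≤ 2 * G := by
    intro t h x
    rw [ContinuousMap.norm_le _ (by positivity)]
    intro s
    rw [hF t h x s]
    unfold EL
    have h1 : ‖∫ τ in (0:ℝ)..s, gradient Q (path t x (ext (F t h x)) τ)‖ ≤ G := by
      have := intervalIntegral.norm_integral_le_of_norm_le_const (a := 0) (b := (s:ℝ))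
        (f := fun τ => gradient Q (path t x (ext (F t h x)) τ)) (C := G) (fun s _ => gQ _)
      refine this.trans (mul_le_of_le_one_right hG0 ?_)
      rw [abs_le]
      constructor <;> linarith [s.2.1, s.2.2]
    calc _ ≤ ‖- gradient p0 (path t x (ext (F t h x)) 0)‖ +
        ‖t • ∫ τ in (0:ℝ)..s, gradient Q (path t x (ext (F t h x)) τ)‖ := norm_add_le _ _
      _ ≤ G + 1 * G := by
        rw [norm_neg, norm_smul, Real.norm_eq_abs]
        gcongr
        · exact gP _
        · exact h.trans hT1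
      _ = 2 * G := by ring
  refine ⟨T, 4 * L + 8 * L * G + 2 * G, H, hTpos, ?_, ?_, ?_⟩
  · intro t x
    by_cases h : |t| ≤ T
    · rw [hH t h x]
      exact ext_cont _
    · simp only [H, dif_neg h]
      exact continuous_const
  · intro t ht t' ht' x x' s hs
    have a : |t| ≤ T := abs_le.2 ht
    have a' : |t'| ≤ T := abs_le.2 ht'
    rw [hH t a x, hH t' a' x']
    set f := F t a x with hf
    set g := F t' a' x' with hg
    refine (ext_sub_norm_le f g s).trans ?_
    have hmain : ‖f - g‖ ≤ 2 * L * (‖x - x'‖ + |t - t'| * (2 * G) + |t'| * ‖f - g‖) +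
        |t - t'| * G := by
      rw [ContinuousMap.norm_le _ (by positivity)]
      intro s
      have e1 : (f - g) s = EL Q p0 t x (ext f) s - EL Q p0 t' x' (ext g) s := by
        rw [ContinuousMap.sub_apply, hf, hg, hF t a x s, hF t' a' x' s]
      rw [e1]
      exact EL_diff cQ gQ lQ lP hL0 (ext_cont f) (ext_cont g)
        (fun s => (ext_norm_le f s).trans (hbd t a x))
        (ext_sub_norm_le f g) t t' x x' (a'.trans hT1) s s.2
    have h3 : 2 * L * (|t'| * ‖f - g‖) ≤ 1 / 2 * ‖f - g‖ := by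
      have h4 : 2 * L * (|t'| * ‖f - g‖) ≤ 2 * L * (T * ‖f - g‖) := by gcongr
      refine h4.trans ?_
      rw [← mul_assoc]
      gcongr
    have h5 : ‖f - g‖ ≤ 2 * (2 * L * (‖x - x'‖ + |t - t'| * (2 * G)) + |t - t'| * G) := by
      nlinarith [hmain, h3]
    refine h5.trans ?_
    have p1 : 0 ≤ L * |t - t'| := by positivity
    have p2 : 0 ≤ L * G * ‖x - x'‖ := by positivity
    have p3 : 0 ≤ G * ‖x - x'‖ := by positivity
    nlinarith [p1, p2, p3]
  · intro t ht x s hs
    have a : |t| ≤ T := abs_le.2 ht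
    rw [hH t a x]
    have := hF t a x ⟨s, hs⟩
    rw [← this]
    exact hext _ ⟨s, hs⟩

end H399R6.HJ1
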