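import Pool.Agent.Helper188.NCM.Stmts2

/-!
# Task HS of project H188-CUNTZ: a Hilbert-Schmidt type inequality
-/

set_option autoImplicit false

open Finset
open scoped MatrixOrder ComplexOrder Matrix

namespace Pool.Agent.H399R6.HS

open Pool.Agent.Helper188.NCM

theorem smul_one_inj {U : Type} [CStarAlgebra U] [Nontrivial U] {x y : ℂ}
    (h : x • (1 : U) = y • (1 : U)) : x = y := by
  have h2 : (x - y) • (1 : U) = 0 := by rw [sub_smul, h, sub_self]
  rcases smul_eq_zero.1 h2 with h3 | h3
  · exact sub_eq_zero.1 h3
  · exact absurd h3 one_ne_zero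

theorem scal {U : Type} [CStarAlgebra U] [Nontrivial U] {Z : U} {l : ℂ}
    (h : star Z * Z = l • (1 : U)) : 0 ≤ l.re ∧ l.im = 0 ∧ ‖Z‖ ^ 2 = l.re := by
  have h1 : star l = l := by
    apply smul_one_inj (U := U)
    have : star (l • (1 : U)) = l • (1 : U) := by
      rw [← h, star_mul, star_star]
    rw [star_smul, star_one] at this
    exact this
  have h2 : l.im = 0 := by
    have := congrArg Complex.im h1
    rw [Complex.star_def, Complex.conj_im] at this
    linarith
  have h3 : star Z * Z = algebraMap ℝ U l.re := by
    rw [h]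
    have : l = ((l.re : ℝ) : ℂ) := Complex.ext rfl (by simp [h2])
    rw [Algebra.algebraMap_eq_smul_one]
    conv_lhs => rw [this]
    exact (Complex.coe_smul _ _)
  have h4 : 0 ≤ l.re := by
    apply spectrum_star_mul_self_nonneg (b := Z)
    rw [h3, spectrum.scalar_eq]
    rfl
  refine ⟨h4, h2, ?_⟩
  rw [sq, ← CStarRing.norm_star_mul_self, h3, norm_algebraMap', Real.norm_eq_abs, abs_of_nonneg h4]

theorem taskHS : TaskHS := by
  intro U _ _ A B a b hA hB N c
  classical
  let K : Matrix (Fin N) (Fin N) ℂ := fun n m => c n * star (c m) * b n m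
  have hbs : ∀ n m, star (b m n) = b n m := by
    intro n m
    apply smul_one_inj (U := U)
    rw [← hB n m]
    have := congrArg star (hB m n)
    rw [star_mul, star_star, star_smul, star_one] at this
    exact this.symm
  have hK : K.PosSemidef := by
    refine Matrix.PosSemidef.of_dotProduct_mulVec_nonneg ?_ ?_
    · ext n m
      rw [Matrix.conjTranspose_apply]
      change star (c m * star (c n) * b m n) = c n * star (c m) * b n m
      rw [star_mul', star_mul', star_star, hbs]
      ring
    · intro x
      set l := star x ⬝ᵥ (K.mulVec x) with hl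
      have hZ : star (∑ m : Fin N, (star (c m) * x m) • B m) *
          (∑ m : Fin N, (star (c m) * x m) • B m) = l • (1 : U) := by
        rw [star_sum, Finset.sum_mul, hl]
        simp only [dotProduct, Matrix.mulVec]
        rw [Finset.sum_smul]
        refine Finset.sum_congr rfl fun n _ => ?_
        rw [Finset.mul_sum, Finset.mul_sum, Finset.sum_smul]
        refine Finset.sum_congr rfl fun m _ => ?_
        rw [star_smul, smul_mul_smul_comm, hB, smul_smul]
        congr 1
        change star (star (c n) * x n) * (star (c m) * x m) * b n m =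
          star (x n) * (c n * star (c m) * b n m * x m)
        rw [star_mul', star_star]
        ring
      obtain ⟨h1, h2, -⟩ := scal hZ
      rw [Complex.le_def]
      exact ⟨h1, h2.symm⟩
  obtain ⟨R, hR⟩ := CStarAlgebra.nonneg_iff_eq_star_mul_self.mp hK.nonneg
  have hKR : ∀ n m : Fin N, c n * star (c m) * b n m = ∑ k, star (R k n) * R k m := by
    intro n m
    have := congrFun (congrFun hR n) m
    rw [Matrix.star_eq_conjTranspose, Matrix.mul_apply] at this
    exact this
  let Y : Fin N → U := fun k => ∑ i : Fin N, star (R k i) • A i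
  let lk : Fin N → ℂ := fun k => ∑ j : Fin N, ∑ i : Fin N, R k j * star (R k i) * a j i
  have hstarY : ∀ k, star (Y k) = ∑ j : Fin N, R k j • star (A j) := by
    intro k
    simp only [Y]
    rw [star_sum]
    refine Finset.sum_congr rfl fun j _ => ?_
    rw [star_smul, star_star]
  have hY : ∀ k, star (Y k) * Y k = lk k • (1 : U) := by
    intro k
    rw [hstarY]
    simp only [Y, lk]
    rw [Finset.sum_mul, Finset.sum_smul]
    refine Finset.sum_congr rfl fun j _ => ?_
    rw [Finset.mul_sum, Finset.sum_smul]
    refine Finset.sum_congr rfl fun i _ => ?_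
    rw [smul_mul_smul_comm, hA, smul_smul]
  -- the sum of the scalars
  have hS : (∑ n ∈ range N, ∑ m ∈ range N, c n * star (c m) * (b n m * a m n)) = ∑ k, lk k := by
    rw [Finset.sum_range]
    simp_rw [Finset.sum_range]
    simp only [lk]
    have e1 : ∀ n m : Fin N, c n * star (c m) * (b n m * a m n) =
        ∑ k, R k m * star (R k n) * a m n := by
      intro n m
      rw [← mul_assoc, hKR, Finset.sum_mul]
      refine Finset.sum_congr rfl fun k _ => ?_
      ring
    simp_rw [e1]
    calc ∑ n : Fin N, ∑ m : Fin N, ∑ k : Fin N, R k m * star (R k n) * a m n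
        = ∑ n : Fin N, ∑ k : Fin N, ∑ m : Fin N, R k m * star (R k n) * a m n :=
          Finset.sum_congr rfl fun n _ => Finset.sum_comm
      _ = ∑ k : Fin N, ∑ n : Fin N, ∑ m : Fin N, R k m * star (R k n) * a m n := Finset.sum_comm
      _ = ∑ k : Fin N, ∑ m : Fin N, ∑ n : Fin N, R k m * star (R k n) * a m n :=
          Finset.sum_congr rfl fun k _ => Finset.sum_comm
  -- the product
  set X := ∑ n ∈ range N, c n • (A n * star (B n)) with hX
  have hX' : X = ∑ i : Fin N, c i • (A i * star (B i)) := by
    rw [hX, Finset.sum_range]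
  have hXX : X * star X = ∑ k, Y k * star (Y k) := by
    have e1 : X * star X = ∑ i : Fin N, ∑ j : Fin N,
        (c i * star (c j) * b i j) • (A i * star (A j)) := by
      rw [hX', star_sum, Finset.sum_mul]
      refine Finset.sum_congr rfl fun i _ => ?_
      rw [Finset.mul_sum]
      refine Finset.sum_congr rfl fun j _ => ?_
      rw [star_smul, star_mul, star_star, smul_mul_smul_comm]
      have : A i * star (B i) * (B j * star (A j)) = A i * (star (B i) * B j) * star (A j) := by
        simp only [mul_assoc]
      rw [this, hB, mul_smul_comm, mul_one, smul_mul_assoc, smul_smul]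
    have e2 : ∑ k, Y k * star (Y k) = ∑ k : Fin N, ∑ i : Fin N, ∑ j : Fin N,
        (star (R k i) * R k j) • (A i * star (A j)) := by
      refine Finset.sum_congr rfl fun k _ => ?_
      rw [hstarY]
      simp only [Y]
      rw [Finset.sum_mul]
      refine Finset.sum_congr rfl fun i _ => ?_
      rw [Finset.mul_sum]
      refine Finset.sum_congr rfl fun j _ => ?_
      rw [smul_mul_smul_comm]
    rw [e1, e2]
    symm
    rw [Finset.sum_comm]
    refine Finset.sum_congr rfl fun i _ => ?_
    rw [Finset.sum_comm]
    refine Finset.sum_congr rfl fun j _ => ?_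
    rw [hKR, Finset.sum_smul]
  have hnn : ‖X‖ ^ 2 ≤ ∑ k, (lk k).re := by
    rw [sq, ← CStarRing.norm_self_mul_star, hXX]
    refine (norm_sum_le _ _).trans (Finset.sum_le_sum fun k _ => ?_)
    rw [CStarRing.norm_self_mul_star, ← sq]
    exact (scal (hY k)).2.2.le
  rw [hS]
  refine ⟨?_, ?_⟩
  · rw [Complex.re_sum]
    exact hnn
  · rw [Complex.im_sum]
    exact Finset.sum_eq_zero fun k _ => (scal (hY k)).2.1

end Pool.Agent.H399R6.HS
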